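import Mathlib

set_option autoImplicit false

/-! From linear forms to restricted denominators (helper103). -/

open Filter

namespace Pool.Agent.W103.PIR

lemma lcmUpto_dvd_of {N q : ℕ} (h : ∀ j, 1 ≤ j → j ≤ N → j ∣ q) : Nat.lcmUpto N ∣ q := by
  unfold Nat.lcmUpto
  apply Finset.lcm_dvd
  intro j hj
  rw [Finset.mem_Icc] at hj
  exact h j hj.1 hj.2

lemma dvd_lcmUpto {j N : ℕ} (h1 : 1 ≤ j) (h2 : j ≤ N) : j ∣ Nat.lcmUpto N :=
  Finset.dvd_lcm (f := id) (Finset.mem_Icc.mpr ⟨h1, h2⟩)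

lemma lcmUpto_mono {a b : ℕ} (h : a ≤ b) : Nat.lcmUpto a ∣ Nat.lcmUpto b :=
  lcmUpto_dvd_of fun _ h1 h2 => dvd_lcmUpto h1 (h2.trans h)

theorem abs_restricted (θ : ℝ) (hθ : Irrational θ) (A B : ℕ → ℝ) (n0 : ℕ) (σ τ ε η lam : ℝ)
    (hA : ∀ n ≥ n0, ∃ a : ℤ, A n = a)
    (hB : ∀ n ≥ n0, ∃ b : ℤ, (Nat.lcmUpto (4 * n) : ℝ) * B n = b)
    (hpos : ∀ n ≥ n0, 0 < A n)
    (hsmall : ∀ n ≥ n0, |A n * θ + B n| ≤ Real.exp (-(τ * n)))
    (hbig : ∀ n ≥ n0, A n ≤ Real.exp (σ * n))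
    (hratio : ∀ n ≥ n0, A (n + 1) ≤ Real.exp (ε * n) * A n)
    (hlcm : ∀ n ≥ n0, Real.exp ((4 - η) * n) ≤ Nat.lcmUpto (4 * n) ∧
      (Nat.lcmUpto (4 * n) : ℝ) ≤ Real.exp ((4 + η) * n))
    (hσ : 0 < σ) (hε : 0 ≤ ε) (hη : 0 ≤ η) (hη4 : η ≤ 1) (ht0 : 0 < τ - ε - 4 - η) (hlam : 0 < lam)
    (hlam1 : 1 < (τ - ε - 2 * η) * lam) :
    ∀ᶠ q : ℕ in atTop, (∀ j : ℕ, 1 ≤ j → (j : ℝ) ≤ 4 * lam * Real.log q → j ∣ q) →
      ∀ p : ℤ, Real.exp (-(σ * (lam * Real.log q))) / 2 ≤ |q * θ - p| := by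
  have hlog : Tendsto (fun q : ℕ => Real.log q) atTop atTop :=
    Real.tendsto_log_atTop.comp tendsto_natCast_atTop_atTop
  have hl2 : 0 < Real.log 2 := Real.log_pos (by norm_num)
  have hτ : 0 < τ := by linarith
  set w : ℝ := τ - ε with hw
  have hw0 : 0 < w := by linarith
  -- largeness conditions
  have ev1 : ∀ᶠ q : ℕ in atTop, (n0 : ℝ) * τ ≤ Real.log q := hlog.eventually_ge_atTop _
  have ev2 : ∀ᶠ q : ℕ in atTop, Real.log 2 + w + 5 < ((w - 2 * η) * lam - 1) * Real.log q := by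
    have : 0 < (w - 2 * η) * lam - 1 := by linarith
    exact (hlog.const_mul_atTop this).eventually_gt_atTop _
  have hlt1 : 1 < τ * lam := by nlinarith
  have ev3 : ∀ᶠ q : ℕ in atTop, Real.log 2 + 2 * τ < (τ * lam - 1) * Real.log q := by
    have : 0 < τ * lam - 1 := by linarith
    exact (hlog.const_mul_atTop this).eventually_gt_atTop _
  filter_upwards [ev1, ev2, ev3, eventually_gt_atTop 0] with q e1 e2 e3 hq0 hdv p
  have hqpos : (0 : ℝ) < q := by exact_mod_cast hq0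
  have hq1 : (1 : ℝ) ≤ q := by exact_mod_cast hq0
  obtain ⟨L, hL⟩ : ∃ L, L = Real.log q := ⟨_, rfl⟩
  rw [← hL] at e1 e2 e3 hdv ⊢
  have hL0 : 0 ≤ L := by rw [hL]; exact Real.log_nonneg hq1
  have hqe : Real.exp L = q := by rw [hL, Real.exp_log hqpos]
  set δ : ℝ := q * θ - p with hδ
  set K : ℝ := (L + Real.log 2) / τ with hK
  have hKnn : 0 ≤ K := by positivity
  set m : ℕ := ⌈K⌉₊ with hm
  have hm1 : K ≤ m := Nat.le_ceil K
  have hm2 : (m : ℝ) < K + 1 := Nat.ceil_lt_add_one hKnn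
  have hmn0 : n0 ≤ m := by
    have : (n0 : ℝ) ≤ K := by
      rw [hK, le_div_iff₀ hτ]
      linarith
    exact_mod_cast this.trans hm1
  set N : ℕ := ⌊lam * L⌋₊ with hN
  have hN1 : (N : ℝ) ≤ lam * L := Nat.floor_le (by positivity)
  have hN2 : lam * L < N + 1 := Nat.lt_floor_add_one _
  have hmN : m ≤ N := by
    have h1 : (m : ℝ) < N := by
      have h2 : K + 1 < lam * L - 1 := by
        rw [hK]
        have h3 : (L + Real.log 2) / τ < lam * L - 2 := by
          rw [div_lt_iff₀ hτ]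
          nlinarith
        linarith
      linarith
    exact_mod_cast h1.le
  have hNq : Nat.lcmUpto (4 * N) ∣ q := by
    apply lcmUpto_dvd_of
    intro j h1 h2
    apply hdv j h1
    have h3 : (j : ℝ) ≤ 4 * N := by exact_mod_cast h2
    nlinarith
  have hsm : ∀ n : ℕ, m ≤ n → q * Real.exp (-(τ * n)) ≤ 1 / 2 := by
    intro n hn
    have h1 : L + Real.log 2 ≤ τ * n := by
      have h2 : K ≤ n := hm1.trans (by exact_mod_cast hn)
      rw [hK, div_le_iff₀ hτ] at h2
      linarith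
    have h5 : Real.exp (-(τ * n)) ≤ Real.exp (-(L + Real.log 2)) :=
      Real.exp_le_exp.mpr (by linarith)
    calc q * Real.exp (-(τ * n)) ≤ q * Real.exp (-(L + Real.log 2)) := by gcongr
      _ = 1 / 2 := by
        rw [neg_add, Real.exp_add, Real.exp_neg L, hqe, Real.exp_neg, Real.exp_log (by norm_num)]
        field_simp
  set J : ℕ → ℝ := fun n => q * B n + p * A n with hJ
  have hJeq : ∀ n, A n * δ = q * (A n * θ + B n) - J n := by
    intro n; rw [hδ, hJ]; ring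
  have hδ0 : δ ≠ 0 := by
    intro h0
    have : θ = ((p / q : ℚ) : ℝ) := by
      push_cast
      rw [eq_div_iff hqpos.ne']
      linarith
    exact hθ ⟨_, this.symm⟩
  have hex : ∃ n, m ≤ n ∧ J n ≠ 0 := by
    by_contra hcon
    push Not at hcon
    have hb : ∀ n ≥ m, |δ| ≤ q * Real.exp (-(τ * n)) := by
      intro n hn
      have hAn := hpos n (hmn0.trans hn)
      obtain ⟨a, ha⟩ := hA n (hmn0.trans hn)
      have hA1 : 1 ≤ A n := by
        rw [ha] at hAn ⊢
        have : (0 : ℤ) < a := by exact_mod_cast hAn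
        exact_mod_cast this
      have h1 := hJeq n
      rw [hcon n hn, sub_zero] at h1
      have h2 : A n * |δ| ≤ q * Real.exp (-(τ * n)) := by
        rw [← abs_of_pos hAn, ← abs_mul, h1, abs_mul, abs_of_pos hqpos]
        exact mul_le_mul_of_nonneg_left (hsmall n (hmn0.trans hn)) hqpos.le
      have h3 : |δ| ≤ A n * |δ| := le_mul_of_one_le_left (abs_nonneg _) hA1
      exact h3.trans h2
    have hlim : Tendsto (fun n : ℕ => (q : ℝ) * Real.exp (-(τ * n))) atTop (nhds 0) := by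
      rw [← mul_zero (q : ℝ)]
      apply Tendsto.const_mul
      apply Real.tendsto_exp_neg_atTop_nhds_zero.comp
      exact tendsto_natCast_atTop_atTop.const_mul_atTop hτ
    have hle : |δ| ≤ 0 := ge_of_tendsto hlim (eventually_atTop.mpr ⟨m, hb⟩)
    exact hδ0 (abs_eq_zero.mp (le_antisymm hle (abs_nonneg _)))
  classical
  obtain ⟨n1, hn1, hmin⟩ : ∃ n1, (m ≤ n1 ∧ J n1 ≠ 0) ∧ ∀ k < n1, ¬ (m ≤ k ∧ J k ≠ 0) :=
    ⟨Nat.find hex, Nat.find_spec hex, fun k hk => Nat.find_min hex hk⟩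
  obtain ⟨hmn1, hJ1⟩ := hn1
  have hn0n1 := hmn0.trans hmn1
  have hA1pos := hpos n1 hn0n1
  have hJle : |J n1| ≤ q * Real.exp (-(τ * n1)) + A n1 * |δ| := by
    have h1 := hJeq n1
    have h2 : |q * (A n1 * θ + B n1)| ≤ q * Real.exp (-(τ * n1)) := by
      rw [abs_mul, abs_of_pos hqpos]
      exact mul_le_mul_of_nonneg_left (hsmall n1 hn0n1) hqpos.le
    have h3 : J n1 = q * (A n1 * θ + B n1) - A n1 * δ := by linarith
    rw [h3]
    refine (abs_sub _ _).trans ?_
    rw [abs_mul (A n1), abs_of_pos hA1pos]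
    linarith
  obtain ⟨b, hb⟩ := hB n1 hn0n1
  obtain ⟨a, ha⟩ := hA n1 hn0n1
  by_cases hcase : n1 ≤ N
  · -- integrality without loss
    have hJge : 1 ≤ |J n1| := by
      obtain ⟨s, hs⟩ := (lcmUpto_mono (show 4 * n1 ≤ 4 * N by omega)).trans hNq
      have hs' : (q : ℝ) = (Nat.lcmUpto (4 * n1) : ℝ) * s := by exact_mod_cast hs
      have hJint : J n1 = ((s * b + p * a : ℤ) : ℝ) := by
        rw [hJ]
        simp only
        rw [ha, hs', show (Nat.lcmUpto (4 * n1) : ℝ) * s * B n1 =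
          s * ((Nat.lcmUpto (4 * n1) : ℝ) * B n1) by ring, hb]
        push_cast
        ring
      rw [hJint] at hJ1 ⊢
      have h5 : (s * b + p * a : ℤ) ≠ 0 := by
        intro h0
        exact hJ1 (by rw [h0]; simp)
      have := Int.one_le_abs h5
      exact_mod_cast this
    have h6 := hsm n1 hmn1
    have h7 : 1 / 2 ≤ A n1 * |δ| := by linarith
    have h8 : A n1 ≤ Real.exp (σ * (lam * L)) := by
      refine (hbig n1 hn0n1).trans (Real.exp_le_exp.mpr ?_)
      have h9 : (n1 : ℝ) ≤ N := by exact_mod_cast hcase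
      nlinarith
    have h10 : 1 / 2 ≤ Real.exp (σ * (lam * L)) * |δ| :=
      h7.trans (mul_le_mul_of_nonneg_right h8 (abs_nonneg _))
    rw [Real.exp_neg, div_le_iff₀ (by norm_num), inv_le_iff_one_le_mul₀ (Real.exp_pos _)]
    linarith
  · -- impossible
    exfalso
    push Not at hcase
    obtain ⟨n, hn⟩ : ∃ n, n1 = n + 1 := ⟨n1 - 1, by omega⟩
    have hNn : N ≤ n := by omega
    have hmn : m ≤ n := by omega
    have hJn : J n = 0 := by
      by_contra h
      exact hmin n (by omega) ⟨hmn, h⟩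
    have hAn := hpos n (hmn0.trans hmn)
    have h1 := hJeq n
    rw [hJn, sub_zero] at h1
    have h2 : A n * |δ| ≤ q * Real.exp (-(τ * n)) := by
      rw [← abs_of_pos hAn, ← abs_mul, h1, abs_mul, abs_of_pos hqpos]
      exact mul_le_mul_of_nonneg_left (hsmall n (hmn0.trans hmn)) hqpos.le
    have hnn : (0 : ℝ) ≤ n := Nat.cast_nonneg n
    have hup : A n1 * |δ| ≤ q * Real.exp (-(w * n)) := by
      rw [hn]
      calc A (n + 1) * |δ| ≤ (Real.exp (ε * n) * A n) * |δ| :=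
            mul_le_mul_of_nonneg_right (hratio n (hmn0.trans hmn)) (abs_nonneg _)
        _ = Real.exp (ε * n) * (A n * |δ|) := by ring
        _ ≤ Real.exp (ε * n) * (q * Real.exp (-(τ * n))) := by gcongr
        _ = q * (Real.exp (ε * n) * Real.exp (-(τ * n))) := by ring
        _ = q * Real.exp (-(w * n)) := by
            rw [← Real.exp_add]
            congr 2
            rw [hw]; ring
    have hJ2 : |J n1| ≤ 2 * (q * Real.exp (-(w * n))) := by
      have h3 : q * Real.exp (-(τ * n1)) ≤ q * Real.exp (-(w * n)) := by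
        apply mul_le_mul_of_nonneg_left _ hqpos.le
        apply Real.exp_le_exp.mpr
        rw [hn]; push_cast
        nlinarith
      linarith
    obtain ⟨c, hc⟩ := lcmUpto_mono (show 4 * N ≤ 4 * n1 by omega)
    obtain ⟨s, hs⟩ := hNq
    have hlN : (0 : ℝ) < Nat.lcmUpto (4 * N) := by exact_mod_cast Nat.lcmUpto_pos _
    have hs' : (q : ℝ) = (Nat.lcmUpto (4 * N) : ℝ) * s := by exact_mod_cast hs
    have hc' : (Nat.lcmUpto (4 * n1) : ℝ) = (Nat.lcmUpto (4 * N) : ℝ) * c := by exact_mod_cast hc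
    have hJint : (c : ℝ) * J n1 = ((s * b + c * (p * a) : ℤ) : ℝ) := by
      rw [hJ]
      simp only
      have h4 : (c : ℝ) * (q * B n1) = s * b := by
        rw [← hb, hc', hs']; ring
      rw [mul_add, h4, ha]
      push_cast
      ring
    have hcpos : 0 < c := by
      rcases Nat.eq_zero_or_pos c with h | h
      · rw [h, mul_zero] at hc
        exact absurd hc (Nat.lcmUpto_ne_zero _)
      · exact h
    have hcR : (0 : ℝ) < c := by exact_mod_cast hcpos
    have hge : 1 ≤ (c : ℝ) * |J n1| := by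
      have h5 : (s * b + c * (p * a) : ℤ) ≠ 0 := by
        intro h0
        rw [h0] at hJint
        have : (c : ℝ) * J n1 ≠ 0 := mul_ne_zero hcR.ne' hJ1
        exact this (by rw [hJint]; simp)
      have h6 := Int.one_le_abs h5
      have h7 : (1 : ℝ) ≤ |((s * b + c * (p * a) : ℤ) : ℝ)| := by exact_mod_cast h6
      rw [← hJint, abs_mul, abs_of_pos hcR] at h7
      exact h7
    have hcle : (c : ℝ) ≤ Real.exp ((4 + η) * n1 - (4 - η) * N) := by
      have h8 := (hlcm n1 hn0n1).2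
      have h9 := (hlcm N (hmn0.trans hmN)).1
      rw [hc'] at h8
      rw [Real.exp_sub, le_div_iff₀ (Real.exp_pos _)]
      calc (c : ℝ) * Real.exp ((4 - η) * N) ≤ c * Nat.lcmUpto (4 * N) := by gcongr
        _ = (Nat.lcmUpto (4 * N) : ℝ) * c := mul_comm _ _
        _ ≤ _ := h8
    have hfin : 1 ≤ Real.exp ((4 + η) * n1 - (4 - η) * N) * (2 * (q * Real.exp (-(w * n)))) :=
      hge.trans (mul_le_mul hcle hJ2 (abs_nonneg _) (Real.exp_pos _).le)
    have hfin2 : Real.exp ((4 + η) * n1 - (4 - η) * N) * (2 * (q * Real.exp (-(w * n)))) =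
        Real.exp ((4 + η) * n1 - (4 - η) * N + (Real.log 2 + L - w * n)) := by
      rw [Real.exp_add, sub_eq_add_neg (Real.log 2 + L), Real.exp_add, Real.exp_add,
        Real.exp_log (by norm_num), hqe]
      ring
    rw [hfin2, Real.one_le_exp_iff] at hfin
    rw [hn] at hfin
    push_cast at hfin
    have hNn' : (N : ℝ) ≤ n := by exact_mod_cast hNn
    nlinarith

end Pool.Agent.W103.PIR
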