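import Pool.Agent.H326R2.Pi.Top
import Pool.Agent.W103.PIR.Abs

set_option autoImplicit false

/-! Approximations to `π` with restricted denominators (helper103). -/

open Filter Polynomial

namespace Pool.Agent.W103.PIR

open Pool.Agent Pool.Agent.H326R2.Pi

lemma hden : S_den := by
  have h2 : S_two := H726R2.PiA.two_of H52R2.PiT6.S_hom_proof H409R2.Pi.s_disc
  have hterm : S_term := H837R2.PI.term T1.odd T1.low T2
  exact H57R2.PiT19.s_den hterm (H326R2.Pi.T5.p_good hterm H847R2.PiT4.uniq) h2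
    (H724R2.PiT9.T9 H52R2.PiT6.S_hom_proof) H930R2.Pi.T16.p_Om

lemma hsmall : S_small :=
  H303R2.PiT15.t15 H52R2.PiT12.S_prim_proof H204R2.PiT13.t13 H1R2.PiM.s_seg

lemma hkreg : S_kreg := H509R2.PiT11.kreg H726R2.PiA.kpos H726R2.PiA.kmul H726R2.PiA.kup

lemma hlcm_ev : ∀ᶠ n : ℕ in atTop, Real.exp ((4 - 0.0001) * n) ≤ Nat.lcmUpto (4 * n) ∧
    (Nat.lcmUpto (4 * n) : ℝ) ≤ Real.exp ((4 + 0.0001) * n) := by
  have h := H30R2.PiT17.psi_lim
  have h1 := h.eventually (eventually_gt_nhds (show (4 : ℝ) - 0.0001 < 4 by norm_num))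
  have h2 := h.eventually (eventually_lt_nhds (show (4 : ℝ) < 4 + 0.0001 by norm_num))
  filter_upwards [h1, h2, eventually_gt_atTop 0] with n g1 g2 hn
  have hn' : (0 : ℝ) < n := by exact_mod_cast hn
  have hl : (0 : ℝ) < Nat.lcmUpto (4 * n) := by exact_mod_cast Nat.lcmUpto_pos _
  rw [Chebyshev.psi_eq_log_lcmUpto] at g1 g2
  rw [lt_div_iff₀ hn'] at g1
  rw [div_lt_iff₀ hn'] at g2
  constructor
  · rw [← Real.le_log_iff_exp_le hl]; exact g1.le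
  · rw [← Real.log_le_iff_le_exp hl]; exact g2.le

attribute [local irreducible] Mn kk kap qq Dn

theorem main1 : ∀ᶠ q : ℕ in atTop,
    (∀ j : ℕ, 1 ≤ j → (j : ℝ) ≤ 4 * 0.15325 * Real.log q → j ∣ q) →
      ∀ p : ℤ, Real.exp (-(10.5407 * (0.15325 * Real.log q))) / 2 ≤ |q * Real.pi - p| := by
  obtain ⟨g, hg0, hg, hk⟩ := hkreg
  obtain ⟨T, hT⟩ : ∃ T : ℕ, T = 1000000 := ⟨_, rfl⟩
  obtain ⟨TR, hTR⟩ : ∃ TR : ℝ, TR = 1000000 := ⟨_, rfl⟩
  have hTT : (T : ℝ) = TR := by rw [hT, hTR]; norm_num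
  have hT1 : 0 < T := by rw [hT]; norm_num
  have hΨ : ∀ n : ℕ, ∃ Ψ : ℚ[X], T ≤ n → Sol n (kk n) Ψ ∧
      ∃ b : ℤ, (2 ^ kap n * Mn n : ℚ) * qq n Ψ = b := by
    intro n
    by_cases hn : T ≤ n
    · obtain ⟨Ψ, h⟩ := hden n (by rw [← hT]; exact hn)
      exact ⟨Ψ, fun _ => h⟩
    · exact ⟨0, fun h => absurd h hn⟩
  choose Ψ hΨ using hΨ
  obtain ⟨A, hA⟩ : ∃ A : ℕ → ℝ, A = fun n => (2 : ℝ) ^ kap n * kk n := ⟨_, rfl⟩
  obtain ⟨B, hB⟩ : ∃ B : ℕ → ℝ, B = fun n => (2 : ℝ) ^ kap n * (qq n (Ψ n) : ℝ) := ⟨_, rfl⟩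
  have hall : ∀ᶠ n : ℕ in atTop, T ≤ n ∧
      (Real.exp ((g - 0.0001) * n) ≤ kk n ∧ (kk n : ℝ) ≤ Real.exp ((g + 0.0001) * n)) ∧
      (kk (n + 1) : ℝ) ≤ Real.exp ((g + 0.0001) * ((n + 1 : ℕ) : ℝ)) ∧
      (16000 * (n : ℝ) ^ 2) ≤ Real.exp (0.0001 * n) ∧
      (16000 * (((n + 1 : ℕ) : ℝ)) ^ 2) ≤ Real.exp (0.0001 * ((n + 1 : ℕ) : ℝ)) ∧
      (Real.exp ((4 - 0.0001) * n) ≤ Nat.lcmUpto (4 * n) ∧
        (Nat.lcmUpto (4 * n) : ℝ) ≤ Real.exp ((4 + 0.0001) * n)) := by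
    have e2 := hk 0.0001 (by norm_num)
    have e3 := log_bound 0.0001 (by norm_num)
    have e2' : ∀ᶠ n : ℕ in atTop, (kk (n + 1) : ℝ) ≤ Real.exp ((g + 0.0001) * ((n + 1 : ℕ) : ℝ)) :=
      ((tendsto_add_atTop_nat 1).eventually e2).mono fun n hn => hn.2
    have e3' : ∀ᶠ n : ℕ in atTop, (16000 * (((n + 1 : ℕ) : ℝ)) ^ 2) ≤ Real.exp (0.0001 * ((n + 1 : ℕ) : ℝ)) :=
      (tendsto_add_atTop_nat 1).eventually e3
    filter_upwards [eventually_ge_atTop T, e2, e2', e3, e3', hlcm_ev] with n h0 h3 h4 h5 h6 h7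
    exact ⟨h0, h3, h4, h5, h6, h7⟩
  obtain ⟨n0, hn0⟩ := eventually_atTop.mp hall
  have hbig : ∀ n : ℕ, T ≤ n → g + 0.0002 ≤ 0.0001 * (n : ℝ) := by
    intro n hn
    have h1 : TR ≤ n := by rw [← hTT]; exact_mod_cast hn
    rw [hTR] at h1
    linarith
  clear hTT hT hTR hall hk
  refine abs_restricted Real.pi irrational_pi A B n0 10.5407 6.5299 0.0004 0.0001 0.15325
    ?_ ?_ ?_ ?_ ?_ ?_ ?_ (by norm_num) (by norm_num) (by norm_num) (by norm_num) (by norm_num)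
    (by norm_num) (by norm_num)
  · intro n hn
    exact ⟨2 ^ kap n * kk n, by rw [hA]; push_cast; ring⟩
  · intro n hn
    obtain ⟨h0, -⟩ := hn0 n hn
    obtain ⟨-, b, hb⟩ := hΨ n h0
    refine ⟨Dn n * b, ?_⟩
    have h1 : (2 : ℝ) ^ kap n * Mn n * (qq n (Ψ n) : ℝ) = b := by
      have := congrArg (fun t : ℚ => (t : ℝ)) hb
      push_cast at this
      exact this
    have h2 : (Nat.lcmUpto (4 * n) : ℝ) = (Mn n : ℝ) * Dn n := by
      rw [← H30R2.PiT17.Mn_mul]; push_cast; ring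
    rw [hB, h2]
    push_cast
    rw [← h1]
    ring
  · intro n hn
    rw [hA]
    have h2 : (0 : ℝ) < kk n := by exact_mod_cast H726R2.PiA.kpos n
    positivity
  · intro n hn
    obtain ⟨h0, -, -, h5, -, -⟩ := hn0 n hn
    have hn1 : 0 < n := by omega
    have hs := hsmall n hn1 (kk n) (Ψ n) (hΨ n h0).1
    have e : A n * Real.pi + B n = (2 : ℝ) ^ kap n * ((kk n : ℝ) * Real.pi + (qq n (Ψ n) : ℝ)) := by
      rw [hA, hB]; ring
    have hk2 := kap_le n hn1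
    rw [e, abs_mul, abs_of_pos (by positivity)]
    calc (2 : ℝ) ^ kap n * |(kk n : ℝ) * Real.pi + (qq n (Ψ n) : ℝ)|
        ≤ (1000 * (n : ℝ) ^ 2) * (16 * Real.exp (-(6.53 * n))) := by
          gcongr
      _ = (16000 * (n : ℝ) ^ 2) * Real.exp (-(6.53 * n)) := by ring
      _ ≤ Real.exp (0.0001 * n) * Real.exp (-(6.53 * n)) := by gcongr
      _ = Real.exp (-(6.5299 * n)) := by
          rw [← Real.exp_add]; congr 1; ring
  · intro n hn
    obtain ⟨h0, ⟨-, h3⟩, -, h5, -, -⟩ := hn0 n hn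
    have hn1 : 0 < n := by omega
    have hk2 := kap_le n hn1
    have hn' : (0 : ℝ) ≤ n := Nat.cast_nonneg n
    have h5' : 1000 * (n : ℝ) ^ 2 ≤ Real.exp (0.0001 * n) := by
      refine le_trans ?_ h5
      nlinarith [sq_nonneg (n : ℝ)]
    have h2 : (0 : ℝ) < kk n := by exact_mod_cast H726R2.PiA.kpos n
    rw [hA]
    calc (2 : ℝ) ^ kap n * kk n
        ≤ Real.exp (0.0001 * n) * Real.exp ((g + 0.0001) * n) := by
          gcongr
          exact hk2.trans h5'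
      _ = Real.exp (0.0001 * n + (g + 0.0001) * n) := by rw [Real.exp_add]
      _ ≤ Real.exp (10.5407 * n) := by
          apply Real.exp_le_exp.mpr
          nlinarith
  · intro n hn
    obtain ⟨h0, ⟨h3, -⟩, h4, -, h6, -⟩ := hn0 n hn
    have hn' := hbig n h0
    have hk2 := kap_le (n + 1) (by omega)
    have hk3 := kap_ge n
    have h6' : 1000 * (((n + 1 : ℕ) : ℝ)) ^ 2 ≤ Real.exp (0.0001 * ((n + 1 : ℕ) : ℝ)) := by
      refine le_trans ?_ h6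
      nlinarith [sq_nonneg (((n + 1 : ℕ) : ℝ))]
    have hkp : (0 : ℝ) < kk (n + 1) := by exact_mod_cast H726R2.PiA.kpos (n + 1)
    have hkp' : (0 : ℝ) < kk n := by exact_mod_cast H726R2.PiA.kpos n
    rw [hA]
    calc (2 : ℝ) ^ kap (n + 1) * kk (n + 1)
        ≤ Real.exp (0.0001 * ((n + 1 : ℕ) : ℝ)) * Real.exp ((g + 0.0001) * ((n + 1 : ℕ) : ℝ)) := by
          gcongr
          exact hk2.trans h6'
      _ = Real.exp (0.0001 * ((n + 1 : ℕ) : ℝ) + (g + 0.0001) * ((n + 1 : ℕ) : ℝ)) := by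
          rw [Real.exp_add]
      _ ≤ Real.exp (0.0004 * n + (g - 0.0001) * n) := by
          apply Real.exp_le_exp.mpr
          push_cast
          nlinarith
      _ = Real.exp (0.0004 * n) * (1 * Real.exp ((g - 0.0001) * n)) := by
          rw [Real.exp_add]; ring
      _ ≤ Real.exp (0.0004 * n) * ((2 : ℝ) ^ kap n * kk n) := by gcongr
  · intro n hn
    obtain ⟨-, -, -, -, -, h7⟩ := hn0 n hn
    exact h7

theorem main2 : ∃ q0 : ℕ, ∀ q : ℕ, q0 ≤ q →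
    (∀ j : ℕ, 1 ≤ j → (j : ℝ) ≤ 0.613 * Real.log q → j ∣ q) →
      ∀ p : ℤ, (q : ℝ) ^ (-(2.616 : ℝ)) ≤ |Real.pi - p / q| := by
  have hlog : Tendsto (fun q : ℕ => Real.log q) atTop atTop :=
    Real.tendsto_log_atTop.comp tendsto_natCast_atTop_atTop
  have ev : ∀ᶠ q : ℕ in atTop, 10000 * Real.log 2 ≤ Real.log q := hlog.eventually_ge_atTop _
  obtain ⟨q0, hq0⟩ := eventually_atTop.mp ((main1.and ev).and (eventually_gt_atTop 0))
  refine ⟨q0, fun q hq hdv p => ?_⟩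
  obtain ⟨⟨h1, h2⟩, h3⟩ := hq0 q hq
  have hqpos : (0 : ℝ) < q := by exact_mod_cast h3
  have h4 := h1 (fun j hj hj2 => hdv j hj (hj2.trans (le_of_eq (by norm_num)))) p
  have h5 : |Real.pi - p / q| = |q * Real.pi - p| / q := by
    rw [← abs_of_pos hqpos, ← abs_div, abs_of_pos hqpos]
    congr 1
    field_simp
  have hl2 : 0 < Real.log 2 := Real.log_pos (by norm_num)
  rw [h5, le_div_iff₀ hqpos]
  refine le_trans ?_ h4
  have h6 : (q : ℝ) ^ (-(2.616 : ℝ)) * q = Real.exp (-(1.616 * Real.log q)) := by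
    conv_lhs => rw [← Real.rpow_one (q : ℝ), ← Real.rpow_mul hqpos.le, ← Real.rpow_add hqpos]
    rw [Real.rpow_def_of_pos hqpos]
    congr 1; ring
  rw [h6, le_div_iff₀ (by norm_num : (0 : ℝ) < 2)]
  calc Real.exp (-(1.616 * Real.log q)) * 2
      = Real.exp (-(1.616 * Real.log q) + Real.log 2) := by
        rw [Real.exp_add, Real.exp_log (by norm_num)]
    _ ≤ Real.exp (-(10.5407 * (0.15325 * Real.log q))) := by
        apply Real.exp_le_exp.mpr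
        nlinarith

theorem main3 : ∃ m0 : ℕ, ∀ m : ℕ, m0 ≤ m → ∀ t : ℕ, 1 ≤ t → (t : ℝ) ≤ Real.exp (0.6 * m) →
    ∀ p : ℤ, ((t * Nat.lcmUpto m : ℕ) : ℝ) ^ (-(2.616 : ℝ)) ≤
      |Real.pi - p / ((t * Nat.lcmUpto m : ℕ) : ℝ)| := by
  obtain ⟨q0, hq0⟩ := main2
  have h1 := (Pool.Agent.Helper799.PNT.psi_div_tendsto.comp
    tendsto_natCast_atTop_atTop).eventually (eventually_lt_nhds (show (1 : ℝ) < 1.02 by norm_num))
  obtain ⟨m1, hm1⟩ := eventually_atTop.mp h1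
  refine ⟨max (max m1 q0) 1, fun m hm t ht htm p => ?_⟩
  have hmm1 : m1 ≤ m := le_trans (le_trans (le_max_left _ _) (le_max_left _ _)) hm
  have hmq0 : q0 ≤ m := le_trans (le_trans (le_max_right _ _) (le_max_left _ _)) hm
  have hm1' : 1 ≤ m := le_trans (le_max_right _ _) hm
  have hmR : (0 : ℝ) < m := by exact_mod_cast hm1'
  have hlpos := Nat.lcmUpto_pos m
  have hml : m ≤ Nat.lcmUpto m := Nat.le_of_dvd hlpos (dvd_lcmUpto hm1' le_rfl)
  have hmq : m ≤ t * Nat.lcmUpto m := hml.trans (Nat.le_mul_of_pos_left _ ht)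
  apply hq0 _ (hmq0.trans hmq)
  intro j hj1 hj2
  have hlR : (0 : ℝ) < Nat.lcmUpto m := by exact_mod_cast hlpos
  have htR : (0 : ℝ) < t := by exact_mod_cast ht
  have h2 := hm1 m hmm1
  simp only [Function.comp_apply] at h2
  rw [Chebyshev.psi_eq_log_lcmUpto, div_lt_iff₀ hmR] at h2
  have h3 : Real.log t ≤ 0.6 * m := (Real.log_le_iff_le_exp htR).2 htm
  push_cast at hj2
  rw [Real.log_mul htR.ne' hlR.ne'] at hj2
  have h4 : (j : ℝ) ≤ m := by nlinarith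
  have h5 : j ≤ m := by exact_mod_cast h4
  exact (dvd_lcmUpto hj1 h5).mul_left t

end Pool.Agent.W103.PIR
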